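import Pool.Agent.helper29.NS.SpecC

/-!
# Project ns, module KB: unique continuation from the circle
-/

set_option autoImplicit false

namespace NS

open MeasureTheory Filter Topology Set

/-- the open cylinder over the disc -/
def KB_A (R : ℝ) : Set (ℝ × ℝ × ℝ) := {z | z.2.1 ^ 2 + z.2.2 ^ 2 < R ^ 2}

theorem KB_A_open (R : ℝ) : IsOpen (KB_A R) :=
  isOpen_lt (by fun_prop) continuous_const

/-- values of an extension by zero: outside -/
theorem KB_out (R : ℝ) (O : Set (ℝ × ℝ × ℝ)) (f : ℝ × ℝ × ℝ → ℝ) (hO : IsOpen O)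
    (h0 : ContDiffOn ℝ 2 ((KB_A R).indicator f) O)
    (h1 : ∀ z ∈ O, fderiv ℝ ((KB_A R).indicator f) z = (KB_A R).indicator (fderiv ℝ f) z)
    (h2 : ∀ z ∈ O, fderiv ℝ (fderiv ℝ ((KB_A R).indicator f)) z =
      (KB_A R).indicator (fderiv ℝ (fderiv ℝ f)) z) (ν : ℝ) (z : ℝ × ℝ × ℝ) (hz : z ∈ O)
    (hzA : z ∉ KB_A R) :
    (KB_A R).indicator f z = 0 ∧ dx ((KB_A R).indicator f) z = 0 ∧
      dy ((KB_A R).indicator f) z = 0 ∧ heat ν ((KB_A R).indicator f) z = 0 := by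
  have e1 : fderiv ℝ ((KB_A R).indicator f) z = 0 := by
    rw [h1 z hz, indicator_of_notMem hzA]
  have e2 : fderiv ℝ (fderiv ℝ ((KB_A R).indicator f)) z = 0 := by
    rw [h2 z hz, indicator_of_notMem hzA]
  have hd : DifferentiableAt ℝ (fderiv ℝ ((KB_A R).indicator f)) z := by
    have h3 : ContDiffAt ℝ 2 ((KB_A R).indicator f) z := h0.contDiffAt (hO.mem_nhds hz)
    exact (h3.fderiv_right (m := 1) (by norm_num)).differentiableAt (by norm_num)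
  have hdd : ∀ e : ℝ × ℝ × ℝ,
      fderiv ℝ (fun z => fderiv ℝ ((KB_A R).indicator f) z e) z e = 0 := by
    intro e
    have h4 : HasFDerivAt (fun z => fderiv ℝ ((KB_A R).indicator f) z e)
        ((fderiv ℝ (fderiv ℝ ((KB_A R).indicator f)) z).flip e) z := by
      have h5 := hd.hasFDerivAt.clm_apply (hasFDerivAt_const e z)
      simpa using h5
    rw [h4.fderiv, e2]
    simp
  refine ⟨indicator_of_notMem hzA _, ?_, ?_, ?_⟩
  · simp [dx, e1]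
  · simp [dy, e1]
  · have a1 : dx (dx ((KB_A R).indicator f)) z = 0 := hdd (0, 1, 0)
    have a2 : dy (dy ((KB_A R).indicator f)) z = 0 := hdd (0, 0, 1)
    have a3 : dt ((KB_A R).indicator f) z = 0 := by simp [dt, e1]
    simp [heat, a1, a2, a3]

/-- values of an extension by zero: inside -/
theorem KB_in (R : ℝ) (f : ℝ × ℝ × ℝ → ℝ) (ν : ℝ) (z : ℝ × ℝ × ℝ) (hzA : z ∈ KB_A R) :
    (KB_A R).indicator f z = f z ∧ dx ((KB_A R).indicator f) z = dx f z ∧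
      dy ((KB_A R).indicator f) z = dy f z ∧ heat ν ((KB_A R).indicator f) z = heat ν f z := by
  have h0 : (KB_A R).indicator f =ᶠ[𝓝 z] f := by
    filter_upwards [(KB_A_open R).mem_nhds hzA] with y hy
    exact indicator_of_mem hy _
  have h1 : ∀ e : ℝ × ℝ × ℝ, (fun z => fderiv ℝ ((KB_A R).indicator f) z e) =ᶠ[𝓝 z]
      fun z => fderiv ℝ f z e := by
    intro e
    filter_upwards [h0.fderiv (𝕜 := ℝ)] with y hy
    rw [hy]
  have a0 : ∀ e : ℝ × ℝ × ℝ, fderiv ℝ ((KB_A R).indicator f) z e = fderiv ℝ f z e :=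
    fun e => (h1 e).self_of_nhds
  have a1 : dx (dx ((KB_A R).indicator f)) z = dx (dx f) z := by
    change fderiv ℝ (fun z => fderiv ℝ ((KB_A R).indicator f) z (0, 1, 0)) z (0, 1, 0) =
      fderiv ℝ (fun z => fderiv ℝ f z (0, 1, 0)) z (0, 1, 0)
    rw [(h1 (0, 1, 0)).fderiv_eq]
  have a2 : dy (dy ((KB_A R).indicator f)) z = dy (dy f) z := by
    change fderiv ℝ (fun z => fderiv ℝ ((KB_A R).indicator f) z (0, 0, 1)) z (0, 0, 1) =
      fderiv ℝ (fun z => fderiv ℝ f z (0, 0, 1)) z (0, 0, 1)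
    rw [(h1 (0, 0, 1)).fderiv_eq]
  have a3 : dt ((KB_A R).indicator f) z = dt f z := a0 _
  exact ⟨h0.self_of_nhds, a0 _, a0 _, by simp only [heat, a1, a2, a3]⟩

theorem KB_frontier (R : ℝ) (z : ℝ × ℝ × ℝ) (hz : z ∈ frontier (KB_A R)) : z.2 ∈ Circ R := by
  have h1 : frontier (KB_A R) ⊆ {z : ℝ × ℝ × ℝ | z.2.1 ^ 2 + z.2.2 ^ 2 = R ^ 2} :=
    frontier_lt_subset_eq (by fun_prop) continuous_const
  exact h1 hz

theorem KB (hKT : KT_stmt) (hGL : GL_stmt) (hKR : KR_stmt) (hYI : YI_stmt) : KB_stmt := by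
  intro R ρ α β ν K v w hρ hρR hν hv hw hcv hcw hineq
  have hR : 0 < R := lt_of_le_of_lt hρ hρR
  obtain ⟨hop, hpre, -, -, -⟩ := hKR ρ R hρ hρR
  set O' : Set (ℝ × ℝ) := {q : ℝ × ℝ | ρ ^ 2 < q.1 ^ 2 + q.2 ^ 2} with hO'
  have hO : IsOpen (Ioo α β ×ˢ O') := isOpen_Ioo.prod hop
  have hgl : ∀ f : ℝ × ℝ × ℝ → ℝ, ContDiff ℝ 2 f →
      (∀ t ∈ Ioo α β, ∀ q ∈ Circ R, f (t, q) = 0 ∧ dx f (t, q) = 0 ∧ dy f (t, q) = 0 ∧
        lap f (t, q) = 0) →
      ContDiffOn ℝ 2 ((KB_A R).indicator f) (Ioo α β ×ˢ O') ∧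
      (∀ z ∈ Ioo α β ×ˢ O', fderiv ℝ ((KB_A R).indicator f) z =
        (KB_A R).indicator (fderiv ℝ f) z) ∧
      (∀ z ∈ Ioo α β ×ˢ O', fderiv ℝ (fderiv ℝ ((KB_A R).indicator f)) z =
        (KB_A R).indicator (fderiv ℝ (fderiv ℝ f)) z) := by
    intro f hf hcf
    refine hGL (KB_A R) (Ioo α β ×ˢ O') f (KB_A_open R) hO hf ?_
    rintro z ⟨hz1, hz2⟩
    exact hKT R α β f hR hf hcf z.1 hz2.1 z.2 (KB_frontier R z hz1)
  obtain ⟨v0, v1, v2⟩ := hgl v hv hcv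
  obtain ⟨w0, w1, w2⟩ := hgl w hw hcw
  have hmain := hYI O' α β ν K ((KB_A R).indicator v) ((KB_A R).indicator w) hop hpre hν v0 w0
    (by
      intro t ht q hq
      have hz : ((t, q) : ℝ × ℝ × ℝ) ∈ Ioo α β ×ˢ O' := ⟨ht, hq⟩
      by_cases hA : ((t, q) : ℝ × ℝ × ℝ) ∈ KB_A R
      · obtain ⟨a1, a2, a3, a4⟩ := KB_in R v ν (t, q) hA
        obtain ⟨b1, b2, b3, b4⟩ := KB_in R w ν (t, q) hA
        rw [a1, a2, a3, a4, b1, b2, b3, b4]
        exact hineq t ht q ⟨hq, hA⟩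
      · obtain ⟨a1, a2, a3, a4⟩ := KB_out R _ v hO v0 v1 v2 ν (t, q) hz hA
        obtain ⟨b1, b2, b3, b4⟩ := KB_out R _ w hO w0 w1 w2 ν (t, q) hz hA
        rw [a1, a2, a3, a4, b1, b2, b3, b4]
        simp)
    (by
      refine ⟨{q : ℝ × ℝ | R ^ 2 < q.1 ^ 2 + q.2 ^ 2}, isOpen_lt continuous_const (by fun_prop),
        ⟨(R + 1, 0), ?_⟩, ?_, ?_⟩
      · change R ^ 2 < (R + 1) ^ 2 + 0 ^ 2
        nlinarith
      · intro q hq
        have h1 : R ^ 2 < q.1 ^ 2 + q.2 ^ 2 := hq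
        change ρ ^ 2 < q.1 ^ 2 + q.2 ^ 2
        nlinarith
      · intro t _ q hq
        have h1 : R ^ 2 < q.1 ^ 2 + q.2 ^ 2 := hq
        have h2 : ((t, q) : ℝ × ℝ × ℝ) ∉ KB_A R := by
          intro h3
          have h4 : q.1 ^ 2 + q.2 ^ 2 < R ^ 2 := h3
          linarith
        exact ⟨indicator_of_notMem h2 _, indicator_of_notMem h2 _⟩)
  intro t ht q hq
  have hA : ((t, q) : ℝ × ℝ × ℝ) ∈ KB_A R := hq.2
  have h1 := hmain t ht q hq.1
  rw [indicator_of_mem hA, indicator_of_mem hA] at h1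
  exact h1

end NS
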