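import Pool.Agent.helper29.NS.SpecD

/-!
# Project ns, module LH: the infinitesimal rotation commutes with the heat operator
-/

set_option autoImplicit false

namespace NS

open MeasureTheory Filter Topology Set

/-- derivative in the direction `e` -/
noncomputable def LH_D (e : ℝ × ℝ × ℝ) (f : ℝ × ℝ × ℝ → ℝ) (z : ℝ × ℝ × ℝ) : ℝ := fderiv ℝ f z e

theorem LH_smooth (e : ℝ × ℝ × ℝ) (f : ℝ × ℝ × ℝ → ℝ) (n : ℕ) (hf : ContDiff ℝ (n + 1 : ℕ) f) :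
    ContDiff ℝ n (LH_D e f) := by
  have h1 : ContDiff ℝ n (fderiv ℝ f) := hf.fderiv_right (by norm_cast)
  exact h1.clm_apply contDiff_const

theorem LH_comm (e e' : ℝ × ℝ × ℝ) (f : ℝ × ℝ × ℝ → ℝ) (hf : ContDiff ℝ 2 f) :
    LH_D e (LH_D e' f) = LH_D e' (LH_D e f) := by
  have hd : Differentiable ℝ (fderiv ℝ f) :=
    (hf.fderiv_right (m := 1) (by norm_num)).differentiable (by norm_num)
  have key : ∀ (e e' : ℝ × ℝ × ℝ) (z : ℝ × ℝ × ℝ),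
      LH_D e (LH_D e' f) z = fderiv ℝ (fderiv ℝ f) z e e' := by
    intro e e' z
    have h4 : HasFDerivAt (fun z => fderiv ℝ f z e')
        ((fderiv ℝ (fderiv ℝ f) z).flip e') z := by
      have h5 := (hd z).hasFDerivAt.clm_apply (hasFDerivAt_const e' z)
      simpa using h5
    change fderiv ℝ (fun z => fderiv ℝ f z e') z e = _
    rw [h4.fderiv]
    rfl
  funext z
  rw [key, key]
  have h5 : IsSymmSndFDerivAt ℝ f z := hf.contDiffAt.isSymmSndFDerivAt (by simp)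
  exact h5.eq e e'

theorem LH_mul (l : ℝ × ℝ × ℝ →L[ℝ] ℝ) (g : ℝ × ℝ × ℝ → ℝ) (hg : Differentiable ℝ g)
    (e : ℝ × ℝ × ℝ) :
    LH_D e (fun z => l z * g z) = fun z => l e * g z + l z * LH_D e g z := by
  funext z
  have h1 : HasFDerivAt (fun z => l z * g z) (l z • fderiv ℝ g z + g z • l) z :=
    (l.hasFDerivAt (x := z)).mul (hg z).hasFDerivAt
  change fderiv ℝ (fun z => l z * g z) z e = _
  rw [h1.fderiv]
  simp [LH_D]
  ring

theorem LH_add (f g : ℝ × ℝ × ℝ → ℝ) (hf : Differentiable ℝ f) (hg : Differentiable ℝ g)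
    (e : ℝ × ℝ × ℝ) : LH_D e (fun z => f z + g z) = fun z => LH_D e f z + LH_D e g z := by
  funext z
  change fderiv ℝ (fun z => f z + g z) z e = _
  have h1 : HasFDerivAt (fun z => f z + g z) (fderiv ℝ f z + fderiv ℝ g z) z :=
    (hf z).hasFDerivAt.add (hg z).hasFDerivAt
  rw [h1.fderiv]
  simp [LH_D]

theorem LH_sub (f g : ℝ × ℝ × ℝ → ℝ) (hf : Differentiable ℝ f) (hg : Differentiable ℝ g)
    (e : ℝ × ℝ × ℝ) : LH_D e (fun z => f z - g z) = fun z => LH_D e f z - LH_D e g z := by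
  funext z
  change fderiv ℝ (fun z => f z - g z) z e = _
  have h1 : HasFDerivAt (fun z => f z - g z) (fderiv ℝ f z - fderiv ℝ g z) z :=
    (hf z).hasFDerivAt.sub (hg z).hasFDerivAt
  rw [h1.fderiv]
  simp [LH_D]

theorem LH_cmul (c : ℝ) (f : ℝ × ℝ × ℝ → ℝ) (hf : Differentiable ℝ f)
    (e : ℝ × ℝ × ℝ) : LH_D e (fun z => c * f z) = fun z => c * LH_D e f z := by
  funext z
  change fderiv ℝ (fun z => c * f z) z e = _
  rw [((hf z).hasFDerivAt.const_mul c).fderiv]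
  simp [LH_D]

theorem LH_heat_def (ν : ℝ) (f : ℝ × ℝ × ℝ → ℝ) (z : ℝ × ℝ × ℝ) :
    heat ν f z = LH_D (1, 0, 0) f z - ν * (LH_D (0, 1, 0) (LH_D (0, 1, 0) f) z +
      LH_D (0, 0, 1) (LH_D (0, 0, 1) f) z) := rfl

theorem LH_diff (f : ℝ × ℝ × ℝ → ℝ) (hf : ContDiff ℝ 2 f) (e : ℝ × ℝ × ℝ) :
    Differentiable ℝ (LH_D e f) :=
  (LH_smooth e f 1 (by exact_mod_cast hf)).differentiable (by norm_num)

theorem LH_heat_add (ν : ℝ) (f g : ℝ × ℝ × ℝ → ℝ) (hf : ContDiff ℝ 2 f) (hg : ContDiff ℝ 2 g)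
    (z : ℝ × ℝ × ℝ) : heat ν (fun z => f z + g z) z = heat ν f z + heat ν g z := by
  have df := hf.differentiable (by norm_num)
  have dg := hg.differentiable (by norm_num)
  simp only [LH_heat_def]
  rw [LH_add f g df dg, LH_add f g df dg, LH_add f g df dg,
    LH_add _ _ (LH_diff f hf _) (LH_diff g hg _), LH_add _ _ (LH_diff f hf _) (LH_diff g hg _)]
  ring

theorem LH_heat_sub (ν : ℝ) (f g : ℝ × ℝ × ℝ → ℝ) (hf : ContDiff ℝ 2 f) (hg : ContDiff ℝ 2 g)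
    (z : ℝ × ℝ × ℝ) : heat ν (fun z => f z - g z) z = heat ν f z - heat ν g z := by
  have df := hf.differentiable (by norm_num)
  have dg := hg.differentiable (by norm_num)
  simp only [LH_heat_def]
  rw [LH_sub f g df dg, LH_sub f g df dg, LH_sub f g df dg,
    LH_sub _ _ (LH_diff f hf _) (LH_diff g hg _), LH_sub _ _ (LH_diff f hf _) (LH_diff g hg _)]
  ring

theorem LH_heat_mul (ν : ℝ) (l : ℝ × ℝ × ℝ →L[ℝ] ℝ) (g : ℝ × ℝ × ℝ → ℝ) (hg : ContDiff ℝ 2 g)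
    (z : ℝ × ℝ × ℝ) : heat ν (fun z => l z * g z) z = l (1, 0, 0) * g z + l z * heat ν g z -
      2 * ν * (l (0, 1, 0) * LH_D (0, 1, 0) g z + l (0, 0, 1) * LH_D (0, 0, 1) g z) := by
  have dg := hg.differentiable (by norm_num)
  have key : ∀ e : ℝ × ℝ × ℝ, LH_D e (LH_D e (fun z => l z * g z)) z =
      2 * (l e * LH_D e g z) + l z * LH_D e (LH_D e g) z := by
    intro e
    have d1 : Differentiable ℝ (fun z => l e * g z) := dg.const_mul _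
    have d2 : Differentiable ℝ (fun z => l z * LH_D e g z) := l.differentiable.mul (LH_diff g hg e)
    rw [LH_mul l g dg e, LH_add _ _ d1 d2, LH_cmul _ _ dg, LH_mul l _ (LH_diff g hg e)]
    ring
  simp only [LH_heat_def]
  rw [key, key, LH_mul l g dg]
  ring

/-- the heat operator commutes with derivatives -/
theorem LH_heat_comm (ν : ℝ) (e : ℝ × ℝ × ℝ) (a : ℝ × ℝ × ℝ → ℝ) (ha : ContDiff ℝ 3 a) :
    heat ν (LH_D e a) = LH_D e (heat ν a) := by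
  have ha2 : ContDiff ℝ 2 a := ha.of_le (by norm_num)
  have s2 : ∀ e : ℝ × ℝ × ℝ, ContDiff ℝ 2 (LH_D e a) := fun e => by
    have := LH_smooth e a 2 (by exact_mod_cast ha)
    exact_mod_cast this
  have d1 : ∀ e : ℝ × ℝ × ℝ, Differentiable ℝ (LH_D e a) := fun e => LH_diff a ha2 e
  have d2 : ∀ e e' : ℝ × ℝ × ℝ, Differentiable ℝ (LH_D e (LH_D e' a)) := fun e e' =>
    LH_diff _ (s2 e') e
  funext z
  have h1 : heat ν a = fun z => LH_D (1, 0, 0) a z - ν * (LH_D (0, 1, 0) (LH_D (0, 1, 0) a) z +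
      LH_D (0, 0, 1) (LH_D (0, 0, 1) a) z) := rfl
  have d3 : Differentiable ℝ fun z => LH_D (0, 1, 0) (LH_D (0, 1, 0) a) z +
      LH_D (0, 0, 1) (LH_D (0, 0, 1) a) z := (d2 _ _).add (d2 _ _)
  have d4 : Differentiable ℝ fun z => ν * (LH_D (0, 1, 0) (LH_D (0, 1, 0) a) z +
      LH_D (0, 0, 1) (LH_D (0, 0, 1) a) z) := d3.const_mul ν
  rw [h1, LH_sub _ _ (d1 _) d4,
    LH_cmul ν _ d3, LH_add _ _ (d2 _ _) (d2 _ _), LH_heat_def,
    LH_comm (1, 0, 0) e a ha2, LH_comm (0, 1, 0) e a ha2, LH_comm (0, 0, 1) e a ha2,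
    LH_comm (0, 1, 0) e _ (s2 _), LH_comm (0, 0, 1) e _ (s2 _)]

theorem LH : LH_stmt := by
  intro ν α β U a b hU ha hb hz
  have ha2 : ContDiff ℝ 2 a := ha.of_le (by norm_num)
  have hb2 : ContDiff ℝ 2 b := hb.of_le (by norm_num)
  have s2 : ∀ (f : ℝ × ℝ × ℝ → ℝ), ContDiff ℝ 3 f → ∀ e : ℝ × ℝ × ℝ, ContDiff ℝ 2 (LH_D e f) :=
    fun f hf e => by
      have := LH_smooth e f 2 (by exact_mod_cast hf)
      exact_mod_cast this
  obtain ⟨X, hX⟩ : ∃ X : ℝ × ℝ × ℝ →L[ℝ] ℝ, ∀ z, X z = z.2.1 :=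
    ⟨(ContinuousLinearMap.fst ℝ ℝ ℝ).comp (ContinuousLinearMap.snd ℝ ℝ (ℝ × ℝ)), fun _ => rfl⟩
  obtain ⟨Y, hY⟩ : ∃ Y : ℝ × ℝ × ℝ →L[ℝ] ℝ, ∀ z, Y z = z.2.2 :=
    ⟨(ContinuousLinearMap.snd ℝ ℝ ℝ).comp (ContinuousLinearMap.snd ℝ ℝ (ℝ × ℝ)), fun _ => rfl⟩
  have eA : LA a b = fun z => (Y z * LH_D (0, 1, 0) a z - X z * LH_D (0, 0, 1) a z) - b z := by
    funext z
    rw [hX, hY]
    rfl
  have eB : LB a b = fun z => (Y z * LH_D (0, 1, 0) b z - X z * LH_D (0, 0, 1) b z) + a z := by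
    funext z
    rw [hX, hY]
    rfl
  have cY : ∀ (f : ℝ × ℝ × ℝ → ℝ), ContDiff ℝ 3 f → ContDiff ℝ 2 fun z =>
      Y z * LH_D (0, 1, 0) f z := fun f hf => Y.contDiff.mul (s2 f hf _)
  have cX : ∀ (f : ℝ × ℝ × ℝ → ℝ), ContDiff ℝ 3 f → ContDiff ℝ 2 fun z =>
      X z * LH_D (0, 0, 1) f z := fun f hf => X.contDiff.mul (s2 f hf _)
  have cAB : ∀ (f : ℝ × ℝ × ℝ → ℝ), ContDiff ℝ 3 f → ContDiff ℝ 2 fun z =>
      Y z * LH_D (0, 1, 0) f z - X z * LH_D (0, 0, 1) f z := fun f hf => (cY f hf).sub (cX f hf)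
  have hker : ∀ (f : ℝ × ℝ × ℝ → ℝ), ContDiff ℝ 3 f →
      (∀ t ∈ Ioo α β, ∀ q ∈ U, heat ν f (t, q) = 0) → ∀ t ∈ Ioo α β, ∀ q ∈ U,
        heat ν (fun z => Y z * LH_D (0, 1, 0) f z - X z * LH_D (0, 0, 1) f z) (t, q) = 0 := by
    intro f hf hf0 t ht q hq
    have hev : heat ν f =ᶠ[𝓝 (t, q)] fun _ => 0 := by
      have hO : IsOpen (Ioo α β ×ˢ U) := isOpen_Ioo.prod hU
      filter_upwards [hO.mem_nhds (⟨ht, hq⟩ : ((t, q) : ℝ × ℝ × ℝ) ∈ Ioo α β ×ˢ U)] with y hy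
      exact hf0 y.1 hy.1 y.2 hy.2
    have h0 : ∀ e : ℝ × ℝ × ℝ, heat ν (LH_D e f) (t, q) = 0 := by
      intro e
      rw [LH_heat_comm ν e f hf]
      change fderiv ℝ (heat ν f) (t, q) e = 0
      rw [hev.fderiv_eq]
      simp
    rw [LH_heat_sub ν _ _ (cY f hf) (cX f hf), LH_heat_mul ν Y _ (s2 f hf _),
      LH_heat_mul ν X _ (s2 f hf _), h0, h0, LH_comm (0, 0, 1) (0, 1, 0) f (hf.of_le (by norm_num))]
    simp only [hX, hY]
    ring
  refine ⟨?_, ?_, ?_⟩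
  · rw [eA]
    exact (cAB a ha).sub hb2
  · rw [eB]
    exact (cAB b hb).add ha2
  · intro t ht q hq
    constructor
    · rw [eA, LH_heat_sub ν _ _ (cAB a ha) hb2,
        hker a ha (fun t ht q hq => (hz t ht q hq).1) t ht q hq, (hz t ht q hq).2]
      ring
    · rw [eB, LH_heat_add ν _ _ (cAB b hb) ha2,
        hker b hb (fun t ht q hq => (hz t ht q hq).2) t ht q hq, (hz t ht q hq).1]
      ring

end NS
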