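import Pool.Agent.helper29.NS.SpecC

/-!
# Project ns, module PP: regularity and periodicity of the log-polar coefficients
-/

set_option autoImplicit false

namespace NS

open MeasureTheory Filter Topology Set

theorem PP_lp : ContDiff ℝ 1 lp := by
  have h1 : ContDiff ℝ 1 fun z : ℝ × ℝ => Real.exp z.2 := Real.contDiff_exp.comp contDiff_snd
  have h2 : ContDiff ℝ 1 fun z : ℝ × ℝ => Real.cos z.1 := Real.contDiff_cos.comp contDiff_fst
  have h3 : ContDiff ℝ 1 fun z : ℝ × ℝ => Real.sin z.1 := Real.contDiff_sin.comp contDiff_fst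
  exact (h1.mul h2).prodMk (h1.mul h3)

theorem PP_px (f : ℝ × ℝ → ℝ) (hf : ContDiff ℝ 2 f) : ContDiff ℝ 1 fun z => px f (lp z) := by
  have h1 : ContDiff ℝ 1 (px f) := by
    have h2 : ContDiff ℝ 1 (fderiv ℝ f) := hf.fderiv_right (by norm_num)
    exact h2.clm_apply contDiff_const
  exact h1.comp PP_lp

theorem PP_py (f : ℝ × ℝ → ℝ) (hf : ContDiff ℝ 2 f) : ContDiff ℝ 1 fun z => py f (lp z) := by
  have h1 : ContDiff ℝ 1 (py f) := by
    have h2 : ContDiff ℝ 1 (fderiv ℝ f) := hf.fderiv_right (by norm_num)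
    exact h2.clm_apply contDiff_const
  exact h1.comp PP_lp

theorem PP_per (θ s : ℝ) : lp (θ + 2 * Real.pi, s) = lp (θ, s) := by
  simp [lp, Real.cos_add_two_pi, Real.sin_add_two_pi]

theorem PP : PP_stmt := by
  intro a b m n ha hb hm hn
  have hc : ContDiff ℝ 1 fun z : ℝ × ℝ => Real.cos z.1 := Real.contDiff_cos.comp contDiff_fst
  have hs : ContDiff ℝ 1 fun z : ℝ × ℝ => Real.sin z.1 := Real.contDiff_sin.comp contDiff_fst
  have he : ContDiff ℝ 1 fun z : ℝ × ℝ => Real.exp z.2 := Real.contDiff_exp.comp contDiff_snd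
  have hml : ContDiff ℝ 1 fun z => m (lp z) := (hm.of_le (by norm_num)).comp PP_lp
  have hnl : ContDiff ℝ 1 fun z => n (lp z) := (hn.of_le (by norm_num)).comp PP_lp
  have a1 := PP_px a ha
  have a2 := PP_py a ha
  have b1 := PP_px b hb
  have b2 := PP_py b hb
  refine ⟨?_, ?_, ?_, ?_, ?_, ?_⟩
  · exact (((hc.pow 2).mul b1).add ((hc.mul hs).mul (b2.sub a1))).sub ((hs.pow 2).mul a2)
  · exact ((((hc.mul hs).mul b1).sub ((hc.pow 2).mul b2)).sub ((hs.pow 2).mul a1)).add
      ((hc.mul hs).mul a2)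
  · exact (((hs.pow 2).mul b1).sub ((hc.mul hs).mul (b2.sub a1))).sub ((hc.pow 2).mul a2)
  · exact (he.mul ((hml.mul hc).add (hnl.mul hs))).neg
  · exact he.mul ((hnl.mul hc).sub (hml.mul hs))
  · intro F hF θ s
    simp only [mem_insert_iff, mem_singleton_iff] at hF
    rcases hF with rfl | rfl | rfl | rfl | rfl
    · simp only [lP, PP_per, Real.cos_add_two_pi, Real.sin_add_two_pi]
    · simp only [lQ, PP_per, Real.cos_add_two_pi, Real.sin_add_two_pi]
    · simp only [lA, PP_per, Real.cos_add_two_pi, Real.sin_add_two_pi]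
    · simp only [lB, PP_per, Real.cos_add_two_pi, Real.sin_add_two_pi]
    · simp only [lC, PP_per, Real.cos_add_two_pi, Real.sin_add_two_pi]

end NS
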